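import Pool.Agent.COSB.StmtsB

/-!
# Squad COSB (MP_0fc649_lc): the row CNT (helper7)

The number of the certificates of part 2.
-/

set_option autoImplicit false

namespace Pool.Agent.COSB.H7

open Pool.Agent.PAR Pool.Agent.COS Pool.Agent.COSB

/-- blocks of a word which is composed of four words of length `N` and a rest -/
theorem blk (N : ℕ) (a b c d e : Word) (ha : a.length = N) (hb : b.length = N)
    (hc : c.length = N) (hd : d.length = N) :
    blW N (a ++ (b ++ (c ++ (d ++ e)))) 0 = a ∧ blW N (a ++ (b ++ (c ++ (d ++ e)))) 1 = b ∧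
    blW N (a ++ (b ++ (c ++ (d ++ e)))) 2 = c ∧ blW N (a ++ (b ++ (c ++ (d ++ e)))) 3 = d ∧
    (a ++ (b ++ (c ++ (d ++ e)))).drop (4 * N) = e := by
  have k1 : (a ++ (b ++ (c ++ (d ++ e)))).drop (1 * N) = b ++ (c ++ (d ++ e)) := by
    rw [one_mul]; exact List.drop_left' ha
  have k2 : (a ++ (b ++ (c ++ (d ++ e)))).drop (2 * N) = c ++ (d ++ e) := by
    have : 2 * N = 1 * N + N := by ring
    rw [this, ← List.drop_drop, k1]
    exact List.drop_left' hb
  have k3 : (a ++ (b ++ (c ++ (d ++ e)))).drop (3 * N) = d ++ e := by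
    have : 3 * N = 2 * N + N := by ring
    rw [this, ← List.drop_drop, k2]
    exact List.drop_left' hc
  have k4 : (a ++ (b ++ (c ++ (d ++ e)))).drop (4 * N) = e := by
    have : 4 * N = 3 * N + N := by ring
    rw [this, ← List.drop_drop, k3]
    exact List.drop_left' hd
  refine ⟨?_, ?_, ?_, ?_, k4⟩
  · unfold blW
    rw [zero_mul, List.drop_zero]
    exact List.take_left' ha
  · unfold blW
    rw [k1]
    exact List.take_left' hb
  · unfold blW
    rw [k2]
    exact List.take_left' hc
  · unfold blW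
    rw [k3]
    exact List.take_left' hd

/-- every word is composed of its first four blocks and the rest -/
theorem spl (N : ℕ) (C : Word) :
    blW N C 0 ++ (blW N C 1 ++ (blW N C 2 ++ (blW N C 3 ++ C.drop (4 * N)))) = C := by
  have h (i : ℕ) : blW N C i ++ C.drop ((i + 1) * N) = C.drop (i * N) := by
    unfold blW
    have : (i + 1) * N = i * N + N := by ring
    rw [this, ← List.drop_drop]
    exact List.take_append_drop _ _
  have e3 := h 3
  have e2 := h 2
  have e1 := h 1
  have e0 := h 0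
  norm_num at e3 e2 e1 e0
  rw [show (4 * N) = 4 * N from rfl, e3, e2]
  rw [e1, e0]

theorem cnt (h1 : WdfStmt) (h2 : HpsStmt) (h3 : PrbStmt) : CntStmt := by
  intro F _ _ _ p k n hp hp2 hk hF η val len hlen hval V x hW
  classical
  obtain ⟨w1, w2, w3, w4, w5, w6, w7⟩ := h1 F n
  let T : Matrix.GeneralLinearGroup (Fin n) F × Matrix.GeneralLinearGroup (Fin n) F → Set Word :=
    fun s => {C | val (memW F V p k n x (encF F s.1.1) (encF F s.2.1)) (n * Fintype.card F)
      (lenC F p k n) C = true}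
  let e : Matrix.GeneralLinearGroup (Fin n) F × Matrix.GeneralLinearGroup (Fin n) F →
      Word → Word := fun s C => encF F s.1.1 ++ (encF F (s.1⁻¹).1 ++ (encF F s.2.1 ++
        (encF F (s.2⁻¹).1 ++ C)))
  have hTf : ∀ s, (T s).Finite := fun s =>
    (List.finite_length_eq Bool (len (n * Fintype.card F) (lenC F p k n))).subset
      (fun C hC => hlen _ _ _ _ hC)
  have hbl (s : Matrix.GeneralLinearGroup (Fin n) F × Matrix.GeneralLinearGroup (Fin n) F)
      (C : Word) := blk (n * n * Fintype.card F) (encF F s.1.1) (encF F (s.1⁻¹).1)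
        (encF F s.2.1) (encF F (s.2⁻¹).1) C (w1 _).1 (w1 _).1 (w1 _).1 (w1 _).1
  have hchar : ∀ C, val2 F val len V p k n x C = true ↔
      ∃ s : Matrix.GeneralLinearGroup (Fin n) F × Matrix.GeneralLinearGroup (Fin n) F,
        (Cnn s.1.1 ∧ Cnn s.2.1) ∧ ∃ C' ∈ T s, e s C' = C := by
    intro C
    constructor
    · intro h
      unfold val2 at h
      simp only [Bool.and_eq_true, decide_eq_true_eq] at h
      obtain ⟨⟨⟨⟨hl, ⟨⟨o0, o1⟩, o2⟩, o3⟩, i0, i1⟩, c0, c1⟩, hv⟩ := h
      obtain ⟨A, hA⟩ := w2 _ o0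
      obtain ⟨B, hB⟩ := w2 _ o1
      obtain ⟨A', hA'⟩ := w2 _ o2
      obtain ⟨B', hB'⟩ := w2 _ o3
      rw [← hA, ← hB, w4] at i0
      rw [← hA', ← hB', w4] at i1
      rw [← hA, w5] at c0
      rw [← hA', w5] at c1
      refine ⟨(⟨A, B, i0, mul_eq_one_comm.1 i0⟩, ⟨A', B', i1, mul_eq_one_comm.1 i1⟩),
        ⟨c0, c1⟩, C.drop (4 * (n * n * Fintype.card F)), ?_, ?_⟩
      · show val (memW F V p k n x (encF F A) (encF F A')) (n * Fintype.card F)
          (lenC F p k n) _ = true
        rw [hA, hA']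
        exact hv
      · show encF F A ++ (encF F B ++ (encF F A' ++ (encF F B' ++ _))) = C
        rw [hA, hB, hA', hB']
        exact spl _ _
    · rintro ⟨s, ⟨c0, c1⟩, C', hC', rfl⟩
      obtain ⟨b0, b1, b2, b3, b4⟩ := hbl s C'
      unfold val2
      simp only [Bool.and_eq_true, decide_eq_true_eq]
      show ((((e s C').length = _ ∧ _) ∧ _) ∧ _) ∧ _
      have hL : (e s C').length = 4 * (n * n * Fintype.card F) +
          len (n * Fintype.card F) (lenC F p k n) := by
        simp only [e, List.length_append, (w1 _).1]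
        rw [hlen _ _ _ _ hC']
        ring
      refine ⟨⟨⟨⟨hL, ?_⟩, ?_⟩, ?_⟩, ?_⟩
      · simp only [e]
        rw [b0, b1, b2, b3]
        exact ⟨⟨⟨(w1 _).2.1, (w1 _).2.1⟩, (w1 _).2.1⟩, (w1 _).2.1⟩
      · simp only [e]
        rw [b0, b1, b2, b3, w4, w4]
        exact ⟨s.1.mul_inv, s.2.mul_inv⟩
      · simp only [e]
        rw [b0, b2, w5, w5]
        exact ⟨c0, c1⟩
      · simp only [e]
        rw [b0, b2, b4]
        exact hC'
  have hinj : ∀ s s' C C', e s C = e s' C' → s = s' ∧ C = C' := by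
    intro s s' C C' h
    obtain ⟨b0, b1, b2, b3, b4⟩ := hbl s C
    obtain ⟨d0, d1, d2, d3, d4⟩ := hbl s' C'
    simp only [e] at h
    rw [← h] at d0 d1 d2 d3 d4
    refine ⟨Prod.ext ?_ ?_, ?_⟩
    · exact Units.ext (w3 _ _ (b0.symm.trans d0))
    · exact Units.ext (w3 _ _ (b2.symm.trans d2))
    · exact b4.symm.trans d4
  -- the counting
  let P : Finset (Matrix.GeneralLinearGroup (Fin n) F × Matrix.GeneralLinearGroup (Fin n) F) :=
    Finset.univ.filter (fun s => Cnn s.1.1 ∧ Cnn s.2.1)
  have hS : {C : Word | val2 F val len V p k n x C = true} =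
      ((P.biUnion (fun s => (hTf s).toFinset.image (e s)) : Finset Word) : Set Word) := by
    ext C
    simp only [Set.mem_ofPred_eq, hchar, Finset.coe_biUnion, Set.mem_iUnion, Finset.mem_coe,
      Finset.mem_image, Set.Finite.mem_toFinset, P, Finset.mem_filter, Finset.mem_univ, true_and,
      exists_prop]
  have hcard : {C : Word | val2 F val len V p k n x C = true}.ncard =
      ∑ s ∈ P, (T s).ncard := by
    rw [hS, Set.ncard_coe_finset, Finset.card_biUnion]
    · refine Finset.sum_congr rfl fun s _ => ?_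
      rw [Finset.card_image_of_injective _ (fun C C' h => (hinj s s C C' h).2),
        Set.ncard_eq_toFinset_card _ (hTf s)]
    · intro s _ s' _ hne
      rw [Function.onFun, Finset.disjoint_left]
      intro C hC hC'
      obtain ⟨D, _, rfl⟩ := Finset.mem_image.1 hC
      obtain ⟨D', _, hD'⟩ := Finset.mem_image.1 hC'
      exact hne (hinj _ _ _ _ hD').1.symm
  rw [hcard, Finset.odd_sum_iff_odd_card_odd]
  have hpar : ∀ s : Matrix.GeneralLinearGroup (Fin n) F × Matrix.GeneralLinearGroup (Fin n) F,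
      Odd (T s).ncard ↔ ∃ w ∈ {w : Gp p k n | V (x, encP p k n w.1) = true},
        IsMon (s.2⁻¹ * Matrix.GeneralLinearGroup.map η w * s.1).1 := by
    intro s
    obtain ⟨q1, q2⟩ := h2 F p k n hp hp2 hk η V x s.1 s.2 hW
    rw [hval _ _ _ q1, q2]
    rfl
  have hfil : ((P.filter (fun s => Odd (T s).ncard) : Finset _) : Set _) =
      {s : Matrix.GeneralLinearGroup (Fin n) F × Matrix.GeneralLinearGroup (Fin n) F |
        Cnn s.1.1 ∧ Cnn s.2.1 ∧ ∃ w ∈ {w : Gp p k n | V (x, encP p k n w.1) = true},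
          IsMon (s.2⁻¹ * Matrix.GeneralLinearGroup.map η w * s.1).1} := by
    ext s
    simp only [P, Finset.coe_filter, Finset.mem_filter, Finset.mem_univ, true_and,
      Set.mem_ofPred_eq, hpar, and_assoc]
  constructor
  · intro h
    by_contra hne
    rw [Set.not_nonempty_iff_eq_empty] at hne
    have : P.filter (fun s => Odd (T s).ncard) = ∅ := by
      rw [Finset.filter_eq_empty_iff]
      intro s _ hs
      obtain ⟨w, hw, _⟩ := (hpar s).1 hs
      rw [hne] at hw
      exact hw
    rw [this] at h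
    simp at h
  · intro hne
    have := h3 F n (Gp p k n) (Matrix.GeneralLinearGroup.map η)
      {w : Gp p k n | V (x, encP p k n w.1) = true} hF hne hW
    rw [← Set.ncard_coe_finset, hfil]
    exact this

end Pool.Agent.COSB.H7
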